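import Pool.Agent.Helper39.TW.Stmts

/-! TW: Lemma HUB. -/

set_option autoImplicit false

namespace TwoWalk

open Finset

section
variable {V : Type} [DecidableEq V] {G : SimpleGraph V}

theorem hub_adj_symm {A B : Finset V} (h : AdjS G A B) : AdjS G B A := by
  obtain ⟨a, ha, b, hb, h⟩ := h
  exact ⟨b, hb, a, ha, h.symm⟩

/-- a connected subset meeting a component is inside -/
theorem hub_sub_comp {X D E : Finset V} (hD : IsComp G X D) (hE : Conn G E) (hEX : E ⊆ X)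
    {v : V} (hvE : v ∈ E) (hvD : v ∈ D) : E ⊆ D := by
  by_contra hn
  have h1 : E ∩ D ≠ E := fun h => hn (by rw [← h]; exact inter_subset_right)
  obtain ⟨a, ha, b, hb, hab⟩ := hE.2 (E ∩ D) inter_subset_left ⟨v, mem_inter.2 ⟨hvE, hvD⟩⟩ h1
  refine hD.2.2 ⟨a, (mem_inter.1 ha).2, b, ?_, hab⟩
  rw [mem_sdiff, mem_inter] at hb
  rw [mem_sdiff]
  exact ⟨hEX hb.1, fun h => hb.2 ⟨hb.1, h⟩⟩

theorem hub_conn_singleton (v : V) : Conn G {v} := by
  refine ⟨singleton_nonempty v, fun B hB hne hB' => ?_⟩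
  exact absurd (hB.antisymm (by
    obtain ⟨w, hw⟩ := hne
    have := mem_singleton.1 (hB hw)
    rw [← this]
    exact singleton_subset_iff.2 hw)) hB'

/-- union of a connected set with an adjacent vertex -/
theorem hub_conn_insert {D : Finset V} (hD : Conn G D) {d w : V} (hd : d ∈ D) (h : G.Adj d w) :
    Conn G (insert w D) := by
  refine ⟨insert_nonempty _ _, fun B hB hne hB' => ?_⟩
  by_cases hw : w ∈ B
  · -- the rest of `D`
    by_cases hDB : D ⊆ B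
    · exact absurd (hB.antisymm (insert_subset hw hDB)) hB'
    · by_cases hBD : (B ∩ D).Nonempty
      · have hne' : B ∩ D ≠ D := fun h => hDB (by rw [← h]; exact inter_subset_left)
        obtain ⟨a, ha, b, hb, hab⟩ := hD.2 (B ∩ D) inter_subset_right hBD hne'
        refine ⟨a, (mem_inter.1 ha).1, b, ?_, hab⟩
        rw [mem_sdiff, mem_inter] at hb
        rw [mem_sdiff, mem_insert]
        exact ⟨Or.inr hb.1, fun h => hb.2 ⟨h, hb.1⟩⟩
      · refine ⟨w, hw, d, ?_, h.symm⟩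
        rw [mem_sdiff, mem_insert]
        exact ⟨Or.inr hd, fun h' => hBD ⟨d, mem_inter.2 ⟨h', hd⟩⟩⟩
  · have hBD : B ⊆ D := fun x hx => by
      rcases mem_insert.1 (hB hx) with h' | h'
      · rw [h'] at hx
        exact absurd hx hw
      · exact h'
    by_cases hDB : B = D
    · refine ⟨d, hDB ▸ hd, w, ?_, h⟩
      rw [mem_sdiff, mem_insert]
      exact ⟨Or.inl rfl, hw⟩
    · obtain ⟨a, ha, b, hb, hab⟩ := hD.2 B hBD hne hDB
      refine ⟨a, ha, b, ?_, hab⟩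
      rw [mem_sdiff] at hb
      rw [mem_sdiff, mem_insert]
      exact ⟨Or.inr hb.1, hb.2⟩

/-- every vertex is in a component -/
theorem hub_exists_comp {X : Finset V} {v : V} (hv : v ∈ X) : ∃ D, IsComp G X D ∧ v ∈ D := by
  classical
  let F := X.powerset.filter (fun D => Conn G D ∧ v ∈ D)
  have hF : F.Nonempty := ⟨{v}, by
    simp only [F, mem_filter, mem_powerset, singleton_subset_iff, mem_singleton, and_true]
    exact ⟨hv, hub_conn_singleton v⟩⟩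
  obtain ⟨D, hD, hmax⟩ := F.exists_max_image card hF
  simp only [F, mem_filter, mem_powerset] at hD hmax
  refine ⟨D, ⟨hD.1, hD.2.1, ?_⟩, hD.2.2⟩
  rintro ⟨a, ha, b, hb, hab⟩
  rw [mem_sdiff] at hb
  have h := hmax (insert b D) ⟨insert_subset hb.1 hD.1, hub_conn_insert hD.2.1 ha hab,
    mem_insert_of_mem hD.2.2⟩
  rw [card_insert_of_notMem hb.2] at h
  omega

/-- (T1): removing a hanging set -/
theorem hub_T1 {X D : Finset V} {z : V} (hX : Conn G X) (hDX : D ⊆ X)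
    (hz : z ∈ X) (hzD : z ∉ D)
    (h : ∀ d ∈ D, ∀ w ∈ X, w ∉ D → G.Adj d w → w = z) : Conn G (X \ D) := by
  refine ⟨⟨z, mem_sdiff.2 ⟨hz, hzD⟩⟩, fun B hB hne hB' => ?_⟩
  have hBX : B ⊆ X := fun x hx => (mem_sdiff.1 (hB hx)).1
  have hBD : ∀ x ∈ B, x ∉ D := fun x hx => (mem_sdiff.1 (hB hx)).2
  by_cases hzB : z ∈ B
  · have h1 : B ∪ D ≠ X := by
      intro he
      apply hB'
      apply hB.antisymm
      intro x hx
      rw [mem_sdiff, ← he, mem_union] at hx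
      rcases hx.1 with h | h
      · exact h
      · exact absurd h hx.2
    obtain ⟨a, ha, b, hb, hab⟩ := hX.2 (B ∪ D) (union_subset hBX hDX)
      ⟨z, mem_union_left _ hzB⟩ h1
    rw [mem_sdiff, mem_union, not_or] at hb
    rcases mem_union.1 ha with ha | ha
    · exact ⟨a, ha, b, by rw [mem_sdiff, mem_sdiff]; exact ⟨⟨hb.1, hb.2.2⟩, hb.2.1⟩, hab⟩
    · have := h a ha b hb.1 hb.2.2 hab
      rw [this] at hb
      exact absurd hzB hb.2.1
  · have h1 : B ≠ X := fun he => hzB (he ▸ hz)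
    obtain ⟨a, ha, b, hb, hab⟩ := hX.2 B hBX hne h1
    rw [mem_sdiff] at hb
    refine ⟨a, ha, b, ?_, hab⟩
    rw [mem_sdiff, mem_sdiff]
    refine ⟨⟨hb.1, fun hbD => ?_⟩, hb.2⟩
    have := h b hbD a (hBX ha) (hBD a ha) hab.symm
    rw [this] at ha
    exact hzB ha

/-- the neighbours of a component of `X \ z` -/
theorem hub_hang {X D : Finset V} {z : V} (hD : IsComp G (X.erase z) D) :
    ∀ d ∈ D, ∀ w ∈ X, w ∉ D → G.Adj d w → w = z := by
  intro d hd w hw hwD h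
  by_contra hne
  exact hD.2.2 ⟨d, hd, w, mem_sdiff.2 ⟨mem_erase.2 ⟨hne, hw⟩, hwD⟩, h⟩

theorem hub_adj_z {X D : Finset V} {z : V} (hX : Conn G X) (hz : z ∈ X)
    (hD : IsComp G (X.erase z) D) : ∃ d ∈ D, G.Adj d z := by
  have hzD : z ∉ D := fun h => (mem_erase.1 (hD.1 h)).1 rfl
  obtain ⟨a, ha, b, hb, hab⟩ := hX.2 D (hD.1.trans (erase_subset _ _)) hD.2.1.1
    (fun h => hzD (h ▸ hz))
  rw [mem_sdiff] at hb
  have := hub_hang hD a ha b hb.1 hb.2 hab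
  exact ⟨a, ha, this ▸ hab⟩

/-- (T2) -/
theorem hub_T2 {S E : Finset V} (hS : NC G S) (hE : E ⊆ S) (hne : E.Nonempty) {z t : V}
    (hz : z ∈ S) (hzE : z ∉ E) (ht : t ∈ S) (htE : t ∉ E) (htz : t ≠ z) :
    ∃ e ∈ E, ∃ v ∈ S, v ∉ E ∧ v ≠ z ∧ G.Adj e v := by
  have hc := hS.2 z hz ⟨t, mem_erase.2 ⟨htz, ht⟩⟩
  obtain ⟨a, ha, b, hb, hab⟩ := hc.2 E (fun x hx => mem_erase.2 ⟨fun h => hzE (h ▸ hx), hE hx⟩)
    hne (fun h => htE (h ▸ mem_erase.2 ⟨htz, ht⟩))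
  rw [mem_sdiff, mem_erase] at hb
  exact ⟨a, ha, b, hb.1.2, hb.2, hb.1.1, hab⟩

/-- a component of `(S \ t) \ z` has a neighbour `t` -/
theorem hub_adj_t {S D : Finset V} {t z : V} (hS : NC G S) (ht : t ∈ S) (hz : z ∈ S.erase t)
    (hD : IsComp G ((S.erase t).erase z) D) : ∃ d ∈ D, G.Adj d t := by
  have hzt := mem_erase.1 hz
  have hzD : z ∉ D := fun h => (mem_erase.1 (hD.1 h)).1 rfl
  have htD : t ∉ D := fun h => (mem_erase.1 (mem_erase.1 (hD.1 h)).2).1 rfl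
  obtain ⟨e, he, v, hv, hvE, hvz, h⟩ := hub_T2 hS
    (fun x hx => (mem_erase.1 (mem_erase.1 (hD.1 hx)).2).2) hD.2.1.1 hzt.2 hzD ht htD
    (fun h => hzt.1 h.symm)
  by_cases hvt : v = t
  · exact ⟨e, he, hvt ▸ h⟩
  · exact absurd (hub_hang hD e he v (mem_erase.2 ⟨hvt, hv⟩) hvE h) hvz

/-- (3C) for a component of `(S \ t) \ z` -/
theorem hub_3C [Fintype V] {S D : Finset V} {t z : V} (h3 : Con3 G) (hSc : Conn G Sᶜ)
    (hD : IsComp G ((S.erase t).erase z) D) (ht : t ∈ S) (hz : z ∈ S) : AdjS G D Sᶜ := by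
  have hDS : D ⊆ S := fun x hx => (mem_erase.1 (mem_erase.1 (hD.1 hx)).2).2
  have hzD : z ∉ D := fun h => (mem_erase.1 (hD.1 h)).1 rfl
  have htD : t ∉ D := fun h => (mem_erase.1 (mem_erase.1 (hD.1 h)).2).1 rfl
  have hc := h3 {z, t} card_le_two
  obtain ⟨o, ho⟩ := hSc.1
  rw [mem_compl] at ho
  have hoT : o ∈ ({z, t} : Finset V)ᶜ := by
    rw [mem_compl, mem_insert, mem_singleton]
    rintro (h | h)
    · exact ho (h ▸ hz)
    · exact ho (h ▸ ht)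
  obtain ⟨a, ha, b, hb, hab⟩ := hc.2 D (fun x hx => by
    rw [mem_compl, mem_insert, mem_singleton]
    rintro (h | h)
    · exact hzD (h ▸ hx)
    · exact htD (h ▸ hx)) hD.2.1.1 (fun h => ho (hDS (h ▸ hoT)))
  rw [mem_sdiff, mem_compl, mem_insert, mem_singleton, not_or] at hb
  refine ⟨a, ha, b, ?_, hab⟩
  rw [mem_compl]
  intro hbS
  exact hb.1.1 (hub_hang hD a ha b (mem_erase.2 ⟨hb.1.2, hbS⟩) hb.2 hab)

/-- the minimality argument -/
theorem hub_min {X D₁ F : Finset V} {z₁ z : V} (hX : Conn G X) (hD₁ : IsComp G (X.erase z₁) D₁)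
    (hz : z ∈ D₁) (hF : IsComp G (X.erase z) F) (hz₁F : z₁ ∉ F) : F ⊂ D₁ := by
  have hzX : z ∈ X := (mem_erase.1 (hD₁.1 hz)).2
  obtain ⟨f, hf, hfz⟩ := hub_adj_z hX hzX hF
  have hfX : f ∈ X := (mem_erase.1 (hF.1 hf)).2
  have hfD : f ∈ D₁ := by
    by_contra hn
    have := hub_hang hD₁ z hz f hfX hn hfz.symm
    exact hz₁F (this ▸ hf)
  have hsub : F ⊆ D₁ := hub_sub_comp hD₁ hF.2.1 (fun x hx => mem_erase.2
    ⟨fun h => hz₁F (h ▸ hx), (mem_erase.1 (hF.1 hx)).2⟩) hf hfD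
  refine ⟨hsub, fun h => ?_⟩
  exact (mem_erase.1 (hF.1 (h hz))).1 rfl

end

theorem st_HUB : ST_HUB := by
  classical
  intro V _ _ G S t h3 hK hSc hS hcard ht
  -- `S' = S \ t` is connected
  have hS'ne : (S.erase t).Nonempty := by
    rw [← card_pos, card_erase_of_mem ht]
    omega
  have hS' : Conn G (S.erase t) := hS.2 t ht hS'ne
  -- two neighbours of `t`
  obtain ⟨w₀, hw₀⟩ := hS'ne
  have hw₀' := mem_erase.1 hw₀
  obtain ⟨w₁, hw₁, hw₁₀⟩ : ∃ w₁ ∈ S.erase t, w₁ ≠ w₀ := by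
    have : 1 < (S.erase t).card := by
      rw [card_erase_of_mem ht]
      omega
    obtain ⟨w₁, h, h'⟩ := exists_mem_ne this w₀
    exact ⟨w₁, h, h'⟩
  have hw₁' := mem_erase.1 hw₁
  have nb : ∀ z ∈ S.erase t, ∃ v ∈ S.erase t, v ≠ z ∧ G.Adj t v := by
    intro z hz
    have hz' := mem_erase.1 hz
    obtain ⟨s, hs, hsz⟩ : ∃ s ∈ S.erase t, s ≠ z := by
      by_cases h : w₀ = z
      · exact ⟨w₁, hw₁, fun h' => hw₁₀ (h'.trans h.symm)⟩
      · exact ⟨w₀, hw₀, h⟩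
    have hs' := mem_erase.1 hs
    obtain ⟨e, he, v, hv, hvE, hvz, h⟩ := hub_T2 (E := {t}) hS (singleton_subset_iff.2 ht)
      (singleton_nonempty t) hz'.2 (fun h => hz'.1 (mem_singleton.1 h)) hs'.2
      (fun h => hs'.1 (mem_singleton.1 h)) hsz
    rw [mem_singleton] at he
    rw [he] at h
    exact ⟨v, mem_erase.2 ⟨fun h => hvE (mem_singleton.2 h), hv⟩, hvz, h⟩
  -- bad pairs
  let Bad : V → Finset V → Prop := fun z D => z ∈ S.erase t ∧ IsComp G ((S.erase t).erase z) D ∧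
    D ≠ (S.erase t).erase z
  by_cases hbad : ∃ z D, Bad z D
  · -- minimal pair
    obtain ⟨D₁, ⟨z₁, hB₁⟩, hmin₁⟩ : ∃ D₁, (∃ z, Bad z D₁) ∧ ∀ D, (∃ z, Bad z D) →
        D₁.card ≤ D.card := by
      have hF : ((univ : Finset (Finset V)).filter (fun D => ∃ z, Bad z D)).Nonempty := by
        obtain ⟨z, D, h⟩ := hbad
        exact ⟨D, mem_filter.2 ⟨mem_univ _, z, h⟩⟩
      obtain ⟨D, hD, hmin⟩ := exists_min_image _ card hF
      exact ⟨D, (mem_filter.1 hD).2, fun E hE => hmin E (mem_filter.2 ⟨mem_univ _, hE⟩)⟩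
    obtain ⟨hz₁, hD₁, hne₁⟩ := hB₁
    have hz₁D₁ : z₁ ∉ D₁ := fun h => (mem_erase.1 (hD₁.1 h)).1 rfl
    -- second minimal pair
    obtain ⟨D₂, ⟨⟨z₂, hB₂⟩, hdis, hz₁D₂⟩, hmin₂⟩ : ∃ D₂, ((∃ z, Bad z D₂) ∧ Disjoint D₂ D₁ ∧
        z₁ ∉ D₂) ∧ ∀ D, ((∃ z, Bad z D) ∧ Disjoint D D₁ ∧ z₁ ∉ D) → D₂.card ≤ D.card := by
      have hF : ((univ : Finset (Finset V)).filter (fun D => (∃ z, Bad z D) ∧ Disjoint D D₁ ∧
          z₁ ∉ D)).Nonempty := by
        obtain ⟨w, hw, hwD⟩ : ∃ w ∈ (S.erase t).erase z₁, w ∉ D₁ := by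
          by_contra hn
          push Not at hn
          exact hne₁ (hD₁.1.antisymm hn)
        obtain ⟨D, hD, hwD'⟩ := hub_exists_comp (G := G) hw
        have hdis : Disjoint D D₁ := by
          rw [disjoint_left]
          intro x hx hx'
          exact hwD (hub_sub_comp hD₁ hD.2.1 hD.1 hx hx' hwD')
        refine ⟨D, mem_filter.2 ⟨mem_univ _, ⟨z₁, hz₁, hD, fun h => ?_⟩, hdis, fun h =>
          (mem_erase.1 (hD.1 h)).1 rfl⟩⟩
        obtain ⟨x, hx⟩ := hD₁.2.1.1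
        exact disjoint_left.1 hdis (h ▸ hD₁.1 hx) hx
      obtain ⟨D, hD, hmin⟩ := exists_min_image _ card hF
      exact ⟨D, (mem_filter.1 hD).2, fun E hE => hmin E (mem_filter.2 ⟨mem_univ _, hE⟩)⟩
    obtain ⟨hz₂, hD₂, hne₂⟩ := hB₂
    have hz₂D₂ : z₂ ∉ D₂ := fun h => (mem_erase.1 (hD₂.1 h)).1 rfl
    obtain ⟨u, hu, hut⟩ := hub_adj_t hS ht hz₁ hD₁
    obtain ⟨v, hv, hvt⟩ := hub_adj_t hS ht hz₂ hD₂
    have huS : u ∈ S.erase t := (mem_erase.1 (hD₁.1 hu)).2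
    have hvS : v ∈ S.erase t := (mem_erase.1 (hD₂.1 hv)).2
    have huv : u ≠ v := fun h => disjoint_left.1 hdis hv (h ▸ hu)
    refine ⟨u, huS, v, hvS, huv, hut.symm, hvt.symm, hS', huS, hvS, ?_⟩
    intro z hz D hD
    by_contra hn
    rw [not_or] at hn
    obtain ⟨huD, hvD⟩ := hn
    have hzD : z ∉ D := fun h => (mem_erase.1 (hD.1 h)).1 rfl
    -- `z ∉ D₁`
    have hzD₁ : z ∉ D₁ := by
      intro hzD₁
      have key : ∀ F, IsComp G ((S.erase t).erase z) F → z₁ ∈ F := by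
        intro F hF
        by_contra hz₁F
        have hlt := card_lt_card (hub_min hS' hD₁ hzD₁ hF hz₁F)
        have := hmin₁ F ⟨z, hz, hF, fun h => hz₁F (h ▸ mem_erase.2
          ⟨fun h' => hz₁D₁ (h' ▸ hzD₁), hz₁⟩)⟩
        omega
      have hvz : v ≠ z := fun h => disjoint_left.1 hdis hv (h ▸ hzD₁)
      obtain ⟨F, hF, hvF⟩ := hub_exists_comp (G := G) (mem_erase.2 ⟨hvz, hvS⟩)
      exact hvD (hub_sub_comp hD hF.2.1 hF.1 (key F hF) (key D hD) hvF)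
    have hzD₂ : z ∉ D₂ := by
      intro hzD₂
      have key : ∀ F, IsComp G ((S.erase t).erase z) F → z₂ ∈ F := by
        intro F hF
        by_contra hz₂F
        have hss := hub_min hS' hD₂ hzD₂ hF hz₂F
        have hlt := card_lt_card hss
        have := hmin₂ F ⟨⟨z, hz, hF, fun h => hz₂F (h ▸ mem_erase.2
          ⟨fun h' => hz₂D₂ (h' ▸ hzD₂), hz₂⟩)⟩, disjoint_of_subset_left hss.1 hdis,
          fun h => hz₁D₂ (hss.1 h)⟩
        omega
      have huz : u ≠ z := fun h => disjoint_left.1 hdis hzD₂ (h ▸ hu)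
      obtain ⟨F, hF, huF⟩ := hub_exists_comp (G := G) (mem_erase.2 ⟨huz, huS⟩)
      exact huD (hub_sub_comp hD hF.2.1 hF.1 (key F hF) (key D hD) huF)
    -- disjointness
    have hDD₁ : Disjoint D₁ D := by
      rw [disjoint_left]
      intro x hx hx'
      exact huD (hub_sub_comp hD hD₁.2.1 (fun y hy => mem_erase.2
        ⟨fun h => hzD₁ (h ▸ hy), (mem_erase.1 (hD₁.1 hy)).2⟩) hx hx' hu)
    have hDD₂ : Disjoint D₂ D := by
      rw [disjoint_left]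
      intro x hx hx'
      exact hvD (hub_sub_comp hD hD₂.2.1 (fun y hy => mem_erase.2
        ⟨fun h => hzD₂ (h ▸ hy), (mem_erase.1 (hD₂.1 hy)).2⟩) hx hx' hv)
    obtain ⟨d₁, hd₁, hd₁z⟩ := hub_adj_z hS' hz₁ hD₁
    obtain ⟨d₂, hd₂, hd₂z⟩ := hub_adj_z hS' hz₂ hD₂
    obtain ⟨d, hd, hdz⟩ := hub_adj_z hS' hz hD
    have hz₁D : z₁ ∉ D := by
      intro h
      have : d₁ ∉ D := disjoint_left.1 hDD₁ hd₁
      have := hub_hang hD z₁ h d₁ (mem_erase.1 (hD₁.1 hd₁)).2 this hd₁z.symm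
      exact hzD₁ (this ▸ hd₁)
    have hz₂D : z₂ ∉ D := by
      intro h
      have : d₂ ∉ D := disjoint_left.1 hDD₂ hd₂
      have := hub_hang hD z₂ h d₂ (mem_erase.1 (hD₂.1 hd₂)).2 this hd₂z.symm
      exact hzD₂ (this ▸ hd₂)
    have hz₂D₁ : z₂ ∉ D₁ := by
      intro h
      have h2 : d₂ ∉ D₁ := disjoint_left.1 hdis hd₂
      have := hub_hang hD₁ z₂ h d₂ (mem_erase.1 (hD₂.1 hd₂)).2 h2 hd₂z.symm
      exact hz₁D₂ (this ▸ hd₂)
    -- the core
    have hD₁S : D₁ ⊆ S.erase t := hD₁.1.trans (erase_subset _ _)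
    have hD₂S : D₂ ⊆ S.erase t := hD₂.1.trans (erase_subset _ _)
    have hDS : D ⊆ S.erase t := hD.1.trans (erase_subset _ _)
    have hX₁ : Conn G (S.erase t \ D₁) := hub_T1 hS' hD₁S hz₁ hz₁D₁ (hub_hang hD₁)
    have hX₂ : Conn G ((S.erase t \ D₁) \ D₂) := by
      refine hub_T1 hX₁ (fun x hx => mem_sdiff.2 ⟨hD₂S hx, disjoint_left.1 hdis hx⟩)
        (mem_sdiff.2 ⟨hz₂, hz₂D₁⟩) hz₂D₂ ?_
      intro e he w hw hwD h
      exact hub_hang hD₂ e he w (mem_sdiff.1 hw).1 hwD h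
    have hX₃ : Conn G (((S.erase t \ D₁) \ D₂) \ D) := by
      refine hub_T1 hX₂ (fun x hx => mem_sdiff.2 ⟨mem_sdiff.2 ⟨hDS hx, fun h =>
        disjoint_left.1 hDD₁ h hx⟩, fun h => disjoint_left.1 hDD₂ h hx⟩)
        (mem_sdiff.2 ⟨mem_sdiff.2 ⟨hz, hzD₁⟩, hzD₂⟩) hzD ?_
      intro e he w hw hwD h
      exact hub_hang hD e he w (mem_sdiff.1 (mem_sdiff.1 hw).1).1 hwD h
    set Cr : Finset V := ((S.erase t \ D₁) \ D₂) \ D with hCr
    have memCr : ∀ x, x ∈ S.erase t → x ∉ D₁ → x ∉ D₂ → x ∉ D → x ∈ Cr := by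
      intro x h1 h2 h3 h4
      rw [hCr, mem_sdiff, mem_sdiff, mem_sdiff]
      exact ⟨⟨⟨h1, h2⟩, h3⟩, h4⟩
    have Cr_sub : ∀ x ∈ Cr, x ∈ S.erase t ∧ x ∉ D₁ ∧ x ∉ D₂ ∧ x ∉ D := by
      intro x hx
      rw [hCr, mem_sdiff, mem_sdiff, mem_sdiff] at hx
      exact ⟨hx.1.1.1, hx.1.1.2, hx.1.2, hx.2⟩
    have tnot : ∀ x ∈ S.erase t, x ≠ t := fun x hx => (mem_erase.1 hx).1
    have inS : ∀ x ∈ S.erase t, x ∈ S := fun x hx => (mem_erase.1 hx).2
    obtain ⟨e, he, het⟩ := hub_adj_t hS ht hz hD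
    refine hK D₁ D₂ D {t} Cr Sᶜ ?_ ?_ ?_
    · -- disjoint
      simp only [List.pairwise_cons, List.mem_cons, List.not_mem_nil, or_false, forall_eq_or_imp,
        forall_eq, IsEmpty.forall_iff, implies_true, List.Pairwise.nil, and_true]
      refine ⟨⟨hdis.symm, hDD₁, ?_, ?_, ?_⟩, ⟨hDD₂, ?_, ?_, ?_⟩, ⟨?_, ?_, ?_⟩, ⟨?_, ?_⟩, ?_⟩
      · rw [disjoint_singleton_right]
        exact fun h => tnot t (hD₁S h) rfl
      · rw [disjoint_left]
        exact fun x hx hx' => (Cr_sub x hx').2.1 hx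
      · rw [disjoint_left]
        exact fun x hx hx' => (mem_compl.1 hx') (inS x (hD₁S hx))
      · rw [disjoint_singleton_right]
        exact fun h => tnot t (hD₂S h) rfl
      · rw [disjoint_left]
        exact fun x hx hx' => (Cr_sub x hx').2.2.1 hx
      · rw [disjoint_left]
        exact fun x hx hx' => (mem_compl.1 hx') (inS x (hD₂S hx))
      · rw [disjoint_singleton_right]
        exact fun h => tnot t (hDS h) rfl
      · rw [disjoint_left]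
        exact fun x hx hx' => (Cr_sub x hx').2.2.2 hx
      · rw [disjoint_left]
        exact fun x hx hx' => (mem_compl.1 hx') (inS x (hDS hx))
      · rw [disjoint_singleton_left]
        exact fun h => tnot t (Cr_sub t h).1 rfl
      · rw [disjoint_singleton_left]
        exact fun h => (mem_compl.1 h) ht
      · rw [disjoint_left]
        exact fun x hx hx' => (mem_compl.1 hx') (inS x (Cr_sub x hx).1)
    · simp only [List.mem_cons, List.not_mem_nil, or_false, forall_eq_or_imp, forall_eq]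
      exact ⟨hD₁.2.1, hD₂.2.1, hD.2.1, hub_conn_singleton t, hX₃, hSc⟩
    · simp only [List.mem_cons, List.not_mem_nil, or_false, forall_eq_or_imp, forall_eq]
      refine ⟨⟨⟨u, hu, t, mem_singleton_self t, hut⟩,
        ⟨d₁, hd₁, z₁, memCr z₁ hz₁ hz₁D₁ hz₁D₂ hz₁D, hd₁z⟩,
        hub_3C h3 hSc hD₁ ht (inS _ hz₁)⟩,
        ⟨⟨v, hv, t, mem_singleton_self t, hvt⟩,
        ⟨d₂, hd₂, z₂, memCr z₂ hz₂ hz₂D₁ hz₂D₂ hz₂D, hd₂z⟩,
        hub_3C h3 hSc hD₂ ht (inS _ hz₂)⟩,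
        ⟨⟨e, he, t, mem_singleton_self t, het⟩,
        ⟨d, hd, z, memCr z hz hzD₁ hzD₂ hzD, hdz⟩,
        hub_3C h3 hSc hD ht (inS _ hz)⟩⟩
  · -- no cut vertex in `S'`
    push Not at hbad
    obtain ⟨u, hu, -, htu⟩ := nb w₀ hw₀
    obtain ⟨v, hv, hvu, htv⟩ := nb u hu
    refine ⟨u, hu, v, hv, fun h => hvu h.symm, htu, htv, hS', hu, hv, ?_⟩
    intro z hz D hD
    have hDe : D = (S.erase t).erase z := by
      by_contra hne
      exact hbad z D ⟨hz, hD, hne⟩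
    by_cases huz : u = z
    · right
      rw [hDe]
      exact mem_erase.2 ⟨fun h => hvu (h.trans huz.symm), hv⟩
    · left
      rw [hDe]
      exact mem_erase.2 ⟨huz, hu⟩

end TwoWalk
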