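import Pool.Agent.Helper39.TW.Stmts

/-! TW: the main induction. -/

set_option autoImplicit false

namespace TwoWalk

open Finset

section
variable {V : Type} [DecidableEq V] {G : SimpleGraph V}

theorem main_nc_ch {S : Finset V} (hS : NC G S) {x y : V} (hx : x ∈ S) (hy : y ∈ S)
    (hxy : x ≠ y) : Ch G S x y := by
  refine ⟨hS.1, hx, hy, fun z hz D hD => ?_⟩
  by_cases hxz : x = z
  · right
    have hyz : y ∈ S.erase z := mem_erase.2 ⟨fun h => hxy (hxz.trans h.symm), hy⟩
    by_contra hn
    exact hD.2.2 ((hS.2 z hz ⟨y, hyz⟩).2 D hD.1 hD.2.1.1 (fun h => hn (h ▸ hyz)))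
  · left
    have hxz' : x ∈ S.erase z := mem_erase.2 ⟨hxz, hx⟩
    by_contra hn
    exact hD.2.2 ((hS.2 z hz ⟨x, hxz'⟩).2 D hD.1 hD.2.1.1 (fun h => hn (h ▸ hxz')))

end

section
variable {V : Type} [DecidableEq V] [Fintype V] {G : SimpleGraph V}

/-- the complement of a smaller set -/
theorem main_compl_union {A B : Finset V} (hA : Conn G A) (hB : Conn G B) (h : AdjS G A B) :
    Conn G (A ∪ B) := by
  obtain ⟨a, ha, b, hb, hab⟩ := h
  refine ⟨⟨a, mem_union_left _ ha⟩, fun C hC hne hC' => ?_⟩
  -- if `C` splits `A`, use `A`; if it splits `B`, use `B`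
  by_cases h1 : (C ∩ A).Nonempty ∧ C ∩ A ≠ A
  · obtain ⟨x, hx, y, hy, hxy⟩ := hA.2 (C ∩ A) inter_subset_right h1.1 h1.2
    rw [mem_sdiff, mem_inter] at hy
    exact ⟨x, (mem_inter.1 hx).1, y, mem_sdiff.2 ⟨mem_union_left _ hy.1, fun h => hy.2 ⟨h, hy.1⟩⟩,
      hxy⟩
  by_cases h2 : (C ∩ B).Nonempty ∧ C ∩ B ≠ B
  · obtain ⟨x, hx, y, hy, hxy⟩ := hB.2 (C ∩ B) inter_subset_right h2.1 h2.2
    rw [mem_sdiff, mem_inter] at hy
    exact ⟨x, (mem_inter.1 hx).1, y, mem_sdiff.2 ⟨mem_union_right _ hy.1,
      fun h => hy.2 ⟨h, hy.1⟩⟩, hxy⟩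
  -- `C` contains or avoids each of `A`, `B`
  have hCA : A ⊆ C ∨ Disjoint C A := by
    by_cases h : (C ∩ A).Nonempty
    · left
      have : C ∩ A = A := by
        by_contra hn
        exact h1 ⟨h, hn⟩
      rw [← this]
      exact inter_subset_left
    · right
      rw [disjoint_iff_inter_eq_empty]
      exact not_nonempty_iff_eq_empty.1 h
  have hCB : B ⊆ C ∨ Disjoint C B := by
    by_cases h : (C ∩ B).Nonempty
    · left
      have : C ∩ B = B := by
        by_contra hn
        exact h2 ⟨h, hn⟩
      rw [← this]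
      exact inter_subset_left
    · right
      rw [disjoint_iff_inter_eq_empty]
      exact not_nonempty_iff_eq_empty.1 h
  rcases hCA with hCA | hCA
  · rcases hCB with hCB | hCB
    · exact absurd (hC.antisymm (union_subset hCA hCB)) hC'
    · exact ⟨a, hCA ha, b, mem_sdiff.2 ⟨mem_union_right _ hb, fun h => disjoint_left.1 hCB h hb⟩,
        hab⟩
  · rcases hCB with hCB | hCB
    · exact ⟨b, hCB hb, a, mem_sdiff.2 ⟨mem_union_left _ ha, fun h => disjoint_left.1 hCA h ha⟩,
        hab.symm⟩
    · obtain ⟨x, hx⟩ := hne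
      rcases mem_union.1 (hC hx) with h | h
      · exact absurd h (disjoint_left.1 hCA hx)
      · exact absurd h (disjoint_left.1 hCB hx)

theorem main_conn_singleton (v : V) : Conn G {v} := by
  refine ⟨singleton_nonempty v, fun B hB hne hB' => ?_⟩
  exact absurd (hB.antisymm (by
    obtain ⟨w, hw⟩ := hne
    have := mem_singleton.1 (hB hw)
    rw [← this]
    exact singleton_subset_iff.2 hw)) hB'

end

theorem st_MAIN (hSYM : ST_SYM) (hC2S : ST_C2S) (hC3S : ST_C3S) (hC3Z : ST_C3Z) (hCE : ST_CE)
    (hCH1 : ST_CH1) (hCH2 : ST_CH2) (hCHH : ST_CHH) (hCM1 : ST_CM1) (hCM2 : ST_CM2)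
    (hCM3 : ST_CM3) (hSPLIT : ST_SPLIT) (hHUB : ST_HUB) (hCUT : ST_CUT) : ST_MAIN := by
  classical
  intro V _ _ G
  -- induction on the size
  suffices H : ∀ n : ℕ, ∀ (S : Finset V) (x y : V), S.card = n → Con3 G → NoK33 G → Conn G Sᶜ →
      Ch G S x y → Rim G S x → Rim G S y → x ≠ y →
      P2 G S x y ∧ ∀ b, Rim G S b → b ≠ x → b ≠ y → P3 G S x y b from
    fun S x y h3 hK hSc hCh hx hy hxy => H S.card S x y rfl h3 hK hSc hCh hx hy hxy
  intro n
  induction n using Nat.strong_induction_on with
  | _ n ih =>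
  intro S x y hn h3 hK hSc hCh hx hy hxy
  by_cases hNC : NC G S
  · -- no cut vertex
    -- one half of `P2`
    have half : ∀ s t : V, Rim G S s → Rim G S t → s ≠ t → 3 ≤ S.card → Half G S s t := by
      intro s t hs ht hst hcard
      obtain ⟨u, hu, v, hv, huv, htu, htv, hch⟩ := hHUB V G S t h3 hK hSc hNC hcard ht.1
      have hsub : (S.erase t).card < n := by
        rw [← hn]
        exact card_erase_lt_of_mem ht.1
      obtain ⟨o, ho, hto⟩ := ht.2
      have hSc' : Conn G (S.erase t)ᶜ := by
        have : (S.erase t)ᶜ = Sᶜ ∪ {t} := by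
          ext w
          simp only [mem_compl, mem_erase, mem_union, mem_singleton, not_and_or, not_not]
          tauto
        rw [this]
        exact main_compl_union hSc (main_conn_singleton t)
          ⟨o, mem_compl.2 ho, t, mem_singleton_self t, hto.symm⟩
      have hts : t ∉ S.erase t := notMem_erase t S
      have hru : Rim G (S.erase t) u := ⟨hu, t, hts, htu.symm⟩
      have hrv : Rim G (S.erase t) v := ⟨hv, t, hts, htv.symm⟩
      have hsS : s ∈ S.erase t := mem_erase.2 ⟨hst, hs.1⟩
      obtain ⟨o', ho', hso'⟩ := hs.2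
      have hrs : Rim G (S.erase t) s := ⟨hsS, o', fun h => ho' (mem_of_mem_erase h), hso'⟩
      obtain ⟨hP2, hP3⟩ := ih _ hsub (S.erase t) u v rfl h3 hK hSc' hch hru hrv huv
      have hins : insert t (S.erase t) = S := insert_erase ht.1
      by_cases hsu : s = u
      · have := hCH2 V G (S.erase t) u v t hts hu hv huv htu htv hP2
        rw [hins] at this
        rw [hsu]
        exact this
      · by_cases hsv : s = v
        · have := hCH2 V G (S.erase t) v u t hts hv hu huv.symm htv htu
            ((hSYM V G (S.erase t) u v u).1 hP2)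
          rw [hins] at this
          rw [hsv]
          exact this
        · have := hCH1 V G (S.erase t) u v s t hts hu hv hsS huv hsu hsv htu htv
            (hP3 s hrs hsu hsv)
          rw [hins] at this
          exact this
    refine ⟨?_, ?_⟩
    · -- `P2`
      by_cases hcard : 3 ≤ S.card
      · exact hCHH V G S x y (half x y hx hy hxy hcard) (half y x hy hx hxy.symm hcard)
      · -- `S = {x, y}`
        have hS : S = {x, y} := by
          symm
          apply eq_of_subset_of_card_le
          · intro w hw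
            rcases mem_insert.1 hw with h | h
            · exact h ▸ hx.1
            · exact (mem_singleton.1 h) ▸ hy.1
          · rw [card_pair hxy]
            omega
        rw [hS]
        apply hCE V G x y hxy
        obtain ⟨a, ha, b, hb, hab⟩ := hCh.1.2 {x} (singleton_subset_iff.2 hx.1)
          (singleton_nonempty x) (fun h => hxy (by
            have := hy.1
            rw [← h, mem_singleton] at this
            exact this.symm))
        rw [mem_singleton] at ha
        rw [mem_sdiff, mem_singleton, hS, mem_insert, mem_singleton] at hb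
        have hby : b = y := by
          rcases hb.1 with h | h
          · exact absurd h hb.2
          · exact h
        rw [ha, hby] at hab
        exact hab
    · -- `P3`
      intro b hb hbx hby
      obtain ⟨K, h₁, h₂, hF, hbK, hM⟩ := hCUT V G S x y b h3 hK hSc hNC hx hy hb hxy hbx hby
      obtain ⟨hKS, hxK, hyK, hxh, hyh, hKch, hMc⟩ := hF
      have hMK : (S \ K) ∪ K = S := sdiff_union_of_subset hKS
      have hdis : Disjoint (S \ K) K := sdiff_disjoint
      have hxM : x ∈ S \ K := mem_sdiff.2 ⟨hx.1, hxK⟩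
      have hyM : y ∈ S \ K := mem_sdiff.2 ⟨hy.1, hyK⟩
      obtain ⟨ob, hob, hbob⟩ := hb.2
      obtain ⟨ox, hox, hxox⟩ := hx.2
      obtain ⟨oy, hoy, hyoy⟩ := hy.2
      have hMcard : (S \ K).card < n := by
        rw [← hn]
        apply card_lt_card
        refine ⟨sdiff_subset, fun h => ?_⟩
        exact (mem_sdiff.1 (h hb.1)).2 hbK
      have hKcard : K.card < n := by
        rw [← hn]
        apply card_lt_card
        refine ⟨hKS, fun h => hxK (h hx.1)⟩
      have hMcompl : Conn G (S \ K)ᶜ := by
        have : (S \ K)ᶜ = Sᶜ ∪ K := by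
          ext w
          simp only [mem_compl, mem_sdiff, mem_union, not_and_or, not_not]
        rw [this]
        exact main_compl_union hSc hKch.1 ⟨ob, mem_compl.2 hob, b, hbK, hbob.symm⟩
      have hKcompl : Conn G Kᶜ := by
        have : Kᶜ = Sᶜ ∪ (S \ K) := by
          ext w
          simp only [mem_compl, mem_sdiff, mem_union]
          constructor
          · intro h
            by_cases hw : w ∈ S
            · exact Or.inr ⟨hw, h⟩
            · exact Or.inl hw
          · rintro (h | h)
            · exact fun hw => h (hKS hw)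
            · exact h.2
        rw [this]
        exact main_compl_union hSc hMc ⟨ox, mem_compl.2 hox, x, hxM, hxox.symm⟩
      have hrxM : Rim G (S \ K) x := ⟨hxM, ox, fun h => hox (mem_sdiff.1 h).1, hxox⟩
      have hryM : Rim G (S \ K) y := ⟨hyM, oy, fun h => hoy (mem_sdiff.1 h).1, hyoy⟩
      have hrbK : Rim G K b := ⟨hbK, ob, fun h => hob (hKS h), hbob⟩
      have hr1K : Rim G K h₁ := ⟨hKch.2.2.1, y, hyK, hyh.symm⟩
      have hr2K : Rim G K h₂ := ⟨hKch.2.1, x, hxK, hxh.symm⟩
      have hPM : P2 G (S \ K) y x :=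
        (ih _ hMcard (S \ K) y x rfl h3 hK hMcompl hM hryM hrxM hxy.symm).1
      by_cases h12 : h₁ = h₂
      · -- `K = {b}`
        have hKb : K = {h₂} := by
          have hh : h₂ ∈ K := hKch.2.1
          by_contra hne
          obtain ⟨w, hw, hwh⟩ : ∃ w ∈ K, w ≠ h₂ := by
            by_contra hnn
            push Not at hnn
            exact hne (eq_singleton_iff_unique_mem.2 ⟨hh, hnn⟩)
          -- a component of `K \ h₂`
          have hex : ∃ D, IsComp G (K.erase h₂) D := by
            let F := (K.erase h₂).powerset.filter (fun D => Conn G D)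
            have hF : F.Nonempty := ⟨{w}, by
              simp only [F, mem_filter, mem_powerset, singleton_subset_iff]
              exact ⟨mem_erase.2 ⟨hwh, hw⟩, main_conn_singleton w⟩⟩
            obtain ⟨D, hD, hmax⟩ := F.exists_max_image card hF
            simp only [F, mem_filter, mem_powerset] at hD hmax
            refine ⟨D, hD.1, hD.2, ?_⟩
            rintro ⟨p, hp, q, hq, hpq⟩
            rw [mem_sdiff] at hq
            have := hmax (D ∪ {q}) ⟨union_subset hD.1 (singleton_subset_iff.2 hq.1),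
              main_compl_union hD.2 (main_conn_singleton q) ⟨p, hp, q, mem_singleton_self q, hpq⟩⟩
            rw [card_union_of_disjoint (disjoint_singleton_right.2 hq.2), card_singleton] at this
            omega
          obtain ⟨D, hD⟩ := hex
          have := hKch.2.2.2 h₂ hh D hD
          rw [h12, or_self] at this
          exact (mem_erase.1 (hD.1 this)).1 rfl
        have hbh : b = h₂ := by
          rw [hKb, mem_singleton] at hbK
          exact hbK
        have hres := hCM3 V G (S \ K) x y b (fun h => (mem_sdiff.1 h).2 hbK) hxM hyM hxy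
          (hbh ▸ hxh) (hbh ▸ h12 ▸ hyh) hPM
        have hSe : insert b (S \ K) = S := by
          conv_rhs => rw [← hMK]
          rw [hKb, hbh, union_comm]
          rfl
        rw [hSe] at hres
        exact hres
      · obtain ⟨hPK2, hPK3⟩ := ih _ hKcard K h₂ h₁ rfl h3 hK hKcompl hKch hr2K hr1K
          (fun h => h12 h.symm)
        by_cases hb1 : b = h₁
        · -- symmetric case
          have hres := hCM2 V G (S \ K) K y x b h₂ hdis hyM hxM hxy.symm hKch.2.1 hbK
            (fun h => h12 (hb1.symm.trans h)) (hb1 ▸ hyh) hxh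
            ((hSYM V G (S \ K) y x y).1 hPM) (by
              rw [hb1]
              exact (hSYM V G K h₂ h₁ h₁).1 hPK2)
          rw [hMK] at hres
          exact (hSYM V G S y x b).2.1 hres
        · by_cases hb2 : b = h₂
          · have hres := hCM2 V G (S \ K) K x y b h₁ hdis hxM hyM hxy hKch.2.2.1 hbK hb1
              (hb2 ▸ hxh) hyh hPM (by rw [hb2]; exact hPK2)
            rw [hMK] at hres
            exact hres
          · have hres := hCM1 V G (S \ K) K x y b h₁ h₂ hdis hxM hyM hxy hKch.2.2.1 hKch.2.1 hbK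
              h12 hb1 hb2 hxh hyh hPM (hPK3 b hrbK hb2 hb1)
            rw [hMK] at hres
            exact hres
  · -- a cut vertex
    obtain ⟨z, S₁, S₂, hU, hI, hx₁, hxz, hy₂, hyz, hch₁, hch₂, hc₁, hc₂, hr₁, hr₂⟩ :=
      hSPLIT V G S x y h3 hSc hCh hNC
    have hz₁ : z ∈ S₁ := hr₁.1
    have hz₂ : z ∈ S₂ := hr₂.1
    have hsub₁ : S₁ ⊆ S := by rw [← hU]; exact subset_union_left
    have hsub₂ : S₂ ⊆ S := by rw [← hU]; exact subset_union_right
    have hy₁ : y ∉ S₁ := fun h => hyz (mem_singleton.1 (by
      rw [← hI]; exact mem_inter.2 ⟨h, hy₂⟩))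
    have hx₂ : x ∉ S₂ := fun h => hxz (mem_singleton.1 (by
      rw [← hI]; exact mem_inter.2 ⟨hx₁, h⟩))
    have hlt₁ : S₁.card < n := by
      rw [← hn]
      exact card_lt_card ⟨hsub₁, fun h => hy₁ (h hy.1)⟩
    have hlt₂ : S₂.card < n := by
      rw [← hn]
      exact card_lt_card ⟨hsub₂, fun h => hx₂ (h hx.1)⟩
    obtain ⟨ox, hox, hxox⟩ := hx.2
    obtain ⟨oy, hoy, hyoy⟩ := hy.2
    have hrx : Rim G S₁ x := ⟨hx₁, ox, fun h => hox (hsub₁ h), hxox⟩
    have hry : Rim G S₂ y := ⟨hy₂, oy, fun h => hoy (hsub₂ h), hyoy⟩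
    obtain ⟨hA2, hA3⟩ := ih _ hlt₁ S₁ x z rfl h3 hK hc₁ hch₁ hrx hr₁ hxz
    obtain ⟨hB2, hB3⟩ := ih _ hlt₂ S₂ z y rfl h3 hK hc₂ hch₂ hr₂ hry hyz.symm
    refine ⟨?_, ?_⟩
    · have := hC2S V G S₁ S₂ x y z hI hx₁ hxz hy₂ hyz hA2 hB2
      rw [hU] at this
      exact this
    · intro b hb hbx hby
      obtain ⟨ob, hob, hbob⟩ := hb.2
      by_cases hbz : b = z
      · have := hC3Z V G S₁ S₂ x y z hI hx₁ hxz hy₂ hyz hA2 hB2
        rw [hU] at this
        rw [hbz]
        exact this
      · have hbS := hb.1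
        rw [← hU, mem_union] at hbS
        rcases hbS with hb₁ | hb₂
        · have hrb : Rim G S₁ b := ⟨hb₁, ob, fun h => hob (hsub₁ h), hbob⟩
          have := hC3S V G S₁ S₂ x y z b hI hx₁ hxz hy₂ hyz hb₁ hbz hbx (hA3 b hrb hbx hbz) hB2
          rw [hU] at this
          exact this
        · -- symmetric: exchange the roles of `x` and `y`
          have hrb : Rim G S₂ b := ⟨hb₂, ob, fun h => hob (hsub₂ h), hbob⟩
          have hI' : S₂ ∩ S₁ = {z} := by rw [inter_comm]; exact hI
          have := hC3S V G S₂ S₁ y x z b hI' hy₂ hyz hx₁ hxz hb₂ hbz hby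
            ((hSYM V G S₂ z y b).2.1 (hB3 b hrb hbz hby)) ((hSYM V G S₁ x z x).1 hA2)
          rw [union_comm, hU] at this
          exact (hSYM V G S y x b).2.1 this

end TwoWalk
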