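import Pool.Agent.Helper39.TW.Lib

/-! TW: modules X1 and ST2. -/

set_option autoImplicit false

namespace TwoWalk

open Finset

section
variable {V : Type} [DecidableEq V] {G : SimpleGraph V}

/-- removing a core keeps the rest connected -/
theorem x1_attach {S X K' : Finset V} (hS : NC G S) (hXS : X ⊆ S) (hKX : K' ⊆ X)
    (hX : Conn G (S \ X))
    (h : ∀ E, IsComp G (X \ K') E → ∃ k ∈ K', (∃ e ∈ E, G.Adj e k) ∧
      ∀ e ∈ E, ∀ v ∈ K', G.Adj e v → v = k) : Conn G (S \ K') := by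
  apply conn_of_attach hX (sdiff_subset_sdiff subset_rfl hKX)
  intro E hE
  have heq : (S \ K') \ (S \ X) = X \ K' := by
    ext v
    simp only [mem_sdiff, not_and, not_not]
    constructor
    · rintro ⟨⟨h1, h2⟩, h3⟩
      exact ⟨h3 h1, h2⟩
    · rintro ⟨h1, h2⟩
      exact ⟨⟨hXS h1, h2⟩, fun _ => h1⟩
  rw [heq] at hE
  obtain ⟨k, hk, -, hk2⟩ := h E hE
  obtain ⟨o, ho⟩ := hX.1
  rw [mem_sdiff] at ho
  have hEX : E ⊆ X := hE.subset.trans sdiff_subset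
  have hkE : k ∉ E := fun h => (mem_sdiff.1 (hE.subset h)).2 hk
  obtain ⟨e, he, v, hv, hvE, hvk, hev⟩ := hS.exists_adj (hEX.trans hXS) hE.nonempty hkE
    ⟨o, ho.1, fun h => ho.2 (hEX h), fun h => ho.2 (h ▸ hKX hk)⟩
  refine ⟨e, he, v, mem_sdiff.2 ⟨hv, fun hvX => ?_⟩, hev⟩
  by_cases hvK : v ∈ K'
  · exact hvk (hk2 e he v hvK hev)
  · exact hvE (hE.mem_of_adj he (mem_sdiff.2 ⟨hvX, hvK⟩) hev)

/-- a leftover is a component of `X \ k` -/
theorem x1_comp {X K' E : Finset V} {k : V} (_ : K' ⊆ X)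
    (hE : IsComp G (X \ K') E) (hk : k ∈ K')
    (h : ∀ e ∈ E, ∀ v ∈ K', G.Adj e v → v = k) : IsComp G (X.erase k) E := by
  refine ⟨fun e he => mem_erase.2 ⟨fun h' => (mem_sdiff.1 (hE.subset he)).2 (h' ▸ hk),
    (mem_sdiff.1 (hE.subset he)).1⟩, hE.conn, ?_⟩
  rintro ⟨e, he, v, hv, hev⟩
  rw [mem_sdiff, mem_erase] at hv
  by_cases hvK : v ∈ K'
  · exact hv.1.1 (h e he v hvK hev)
  · exact hv.2 (hE.mem_of_adj he (mem_sdiff.2 ⟨hv.1.2, hvK⟩) hev)

/-- rerouting the core through a leftover -/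
theorem x1_step (h3 : ST_T3) (h5 : ST_T5) {X E : Finset V} {k b p q : V} (hX : Conn G X)
    (hk : k ∈ X) (hE : IsComp G (X.erase k) E) (hb : b ∈ E) (hp : p ∈ E) (hq : q ∈ X)
    (hqE : q ∉ E) : ∃ K'' ⊆ X, Ch G K'' p q ∧
      (∀ F, IsComp G (X \ K'') F → ∃ k ∈ K'', (∃ e ∈ F, G.Adj e k) ∧
        ∀ e ∈ F, ∀ v ∈ K'', G.Adj e v → v = k) ∧
      (b ∈ K'' ∨ ∃ F, IsComp G (X \ K'') F ∧ b ∈ F ∧ F ⊂ E) := by
  obtain ⟨P, hPX, hP⟩ := h3 V G X p q hX (hE.subset_erase hp) hq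
  obtain ⟨K'', -, hKX, hK, hleft⟩ := h5 V G X P p q hX hPX hP
  refine ⟨K'', hKX, hK, hleft, ?_⟩
  by_cases hbK : b ∈ K''
  · exact Or.inl hbK
  · right
    have hbX : b ∈ X := hE.subset_erase hb
    obtain ⟨F, hF, hbF⟩ := exists_comp (G := G) (mem_sdiff.2 ⟨hbX, hbK⟩)
    obtain ⟨k'', hk'', -, hk2⟩ := hleft F hF
    have hFc := x1_comp hKX hF hk'' hk2
    have hFK : ∀ x ∈ F, x ∉ K'' := fun x hx => (mem_sdiff.1 (hF.subset hx)).2
    have hkE : k'' ∈ E := by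
      by_contra hn
      have : E ⊆ F := hFc.subset_of_mem hE.conn (fun x hx => mem_erase.2
        ⟨fun h => hn (h ▸ hx), hE.subset_erase hx⟩) hb hbF
      exact hFK p (this hp) hK.left_mem
    have hsub : F ⊆ E := by
      by_contra hn
      obtain ⟨x, hx, hxE⟩ := not_subset.1 hn
      have hc : Conn G (X \ E) := hE.conn_sdiff hX hk
      have : X \ E ⊆ F := hFc.subset_of_mem hc (fun y hy => mem_erase.2
        ⟨fun h => (mem_sdiff.1 hy).2 (h ▸ hkE), (mem_sdiff.1 hy).1⟩)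
        (mem_sdiff.2 ⟨(mem_sdiff.1 (hF.subset hx)).1, hxE⟩) hx
      exact hFK q (this (mem_sdiff.2 ⟨hq, hqE⟩)) hK.right_mem
    exact ⟨F, hF, hbF, hsub, fun h => hFK k'' (h hkE) hk''⟩

end

theorem st_X1 (h5 : ST_T5) : ST_X1 := by
  classical
  intro V _ G S a c K h₁ h₂ y D hS ha hc hac hF hy hD haD hcD hkl
  obtain ⟨hKS, haK, hcK, hah, hch, hKch, hM⟩ := hF
  obtain ⟨k, hk, l, hl, hne, ⟨d, hd, hdk⟩, ⟨d', hd', hdl⟩⟩ := hkl
  have hDM : D ⊆ S \ K := hD.subset_erase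
  have hDS : D ⊆ S := fun x hx => (mem_sdiff.1 (hDM hx)).1
  have hDK : ∀ x ∈ D, x ∉ K := fun x hx => (mem_sdiff.1 (hDM hx)).2
  have hX : Conn G (K ∪ D) := hKch.conn.union hD.conn (Or.inl ⟨k, hk, d, hd, hdk.symm⟩)
  obtain ⟨K', hKK', hK'X, hK'ch, hleft⟩ := h5 V G (K ∪ D) K h₂ h₁ hX subset_union_left hKch
  have hXS : K ∪ D ⊆ S := union_subset hKS hDS
  have hneq : K ≠ K' := by
    intro he
    rw [← he] at hleft
    have hXK : (K ∪ D) \ K = D := by
      ext x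
      simp only [mem_sdiff, mem_union]
      constructor
      · rintro ⟨h | h, h'⟩
        · exact absurd h h'
        · exact h
      · intro h
        exact ⟨Or.inr h, hDK x h⟩
    rw [hXK] at hleft
    obtain ⟨k₀, -, -, h0⟩ := hleft D hD.conn.isComp
    exact hne ((h0 d hd k hk hdk).trans (h0 d' hd' l hl hdl).symm)
  have hSX : S \ (K ∪ D) = (S \ K) \ D := by
    ext x
    simp only [mem_sdiff, mem_union, not_or, and_assoc]
  have hc' : Conn G (S \ (K ∪ D)) := by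
    rw [hSX]
    exact hD.conn_sdiff hM hy
  refine ⟨K', ⟨hKK', fun h => hneq (hKK'.antisymm h)⟩, hK'X.trans hXS, ?_, ?_, hah, hch, hK'ch,
    x1_attach hS hXS hK'X hc' hleft⟩
  · intro h
    rcases mem_union.1 (hK'X h) with h | h
    · exact haK h
    · exact haD h
  · intro h
    rcases mem_union.1 (hK'X h) with h | h
    · exact hcK h
    · exact hcD h

theorem st_ST2 (h3 : ST_T3) (h5 : ST_T5) : ST_ST2 := by
  classical
  intro V _ G S a c b K h₁ h₂ hS ha hc hac hF hMch hb hba hbc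
  obtain ⟨hKS, haK, hcK, hah, hch, hKch, hM⟩ := hF
  have hbM : b ∈ ((S \ K).erase a).erase c := mem_erase.2 ⟨hbc, mem_erase.2 ⟨hba, hb⟩⟩
  obtain ⟨X, hX, hbX⟩ := exists_comp (G := G) hbM
  have hXM : ∀ x ∈ X, x ∈ S \ K ∧ x ≠ a ∧ x ≠ c := by
    intro x hx
    have := hX.subset hx
    rw [mem_erase, mem_erase] at this
    exact ⟨this.2.2, this.2.1, this.1⟩
  have hXS : X ⊆ S := fun x hx => (mem_sdiff.1 (hXM x hx).1).1
  have haM : a ∈ S \ K := mem_sdiff.2 ⟨ha, haK⟩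
  have hcM : c ∈ S \ K := mem_sdiff.2 ⟨hc, hcK⟩
  have haX : a ∉ X := fun h => (hXM a h).2.1 rfl
  have hcX : c ∉ X := fun h => (hXM c h).2.2 rfl
  -- a piece `E ⊆ X` hanging at `k` (inside `X`) touches `a` or `c`
  have touch : ∀ (k : V) (E : Finset V), k ∈ S \ K → IsComp G (X.erase k) E ∨ E = X →
      k ∉ E → (∀ e ∈ E, ¬ G.Adj e a ∨ k = a) → (∀ e ∈ E, ¬ G.Adj e c ∨ k = c) → False := by
    intro k E hk hE hkE hEa hEc
    have hEX : E ⊆ X := by
      rcases hE with h | h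
      · exact h.subset_erase
      · exact h.subset
    have hcomp : IsComp G ((S \ K).erase k) E := by
      refine ⟨fun e he => mem_erase.2 ⟨fun h => hkE (h ▸ he), (hXM e (hEX he)).1⟩, ?_, ?_⟩
      · rcases hE with h | h
        · exact h.conn
        · exact h ▸ hX.conn
      · rintro ⟨e, he, v, hv, hev⟩
        rw [mem_sdiff, mem_erase] at hv
        have hva : v ≠ a := by
          rintro rfl
          rcases hEa e he with h | h
          · exact h hev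
          · exact hv.1.1 h.symm
        have hvc : v ≠ c := by
          rintro rfl
          rcases hEc e he with h | h
          · exact h hev
          · exact hv.1.1 h.symm
        have hvX : v ∈ X := hX.mem_of_adj (hEX he) (mem_erase.2 ⟨hvc, mem_erase.2
          ⟨hva, hv.1.2⟩⟩) hev
        rcases hE with h | h
        · exact hv.2 (h.mem_of_adj he (mem_erase.2 ⟨hv.1.1, hvX⟩) hev)
        · exact hv.2 (h ▸ hvX)
    rcases hMch.comp_mem hk hcomp with h | h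
    · exact hcX (hEX h)
    · exact haX (hEX h)
  obtain ⟨p₀, hp₀, hp₀a⟩ : ∃ p ∈ X, G.Adj p a := by
    by_contra hn
    push Not at hn
    exact touch c X hcM (Or.inr rfl) hcX (fun e he => Or.inl (hn e he)) (fun _ _ => Or.inr rfl)
  obtain ⟨q₀, hq₀, hq₀c⟩ : ∃ q ∈ X, G.Adj q c := by
    by_contra hn
    push Not at hn
    exact touch a X haM (Or.inr rfl) haX (fun _ _ => Or.inr rfl) (fun e he => Or.inl (hn e he))
  -- the complement of `X` in `S` is connected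
  have hSX : Conn G (S \ X) := by
    have hA : Conn G (insert c (insert a K)) :=
      (hKch.conn.insert hKch.left_mem hah.symm).insert
        (mem_insert_of_mem hKch.right_mem) hch.symm
    refine conn_of_attach hA ?_ ?_
    · intro x hx
      rw [mem_insert, mem_insert] at hx
      rcases hx with rfl | rfl | hx
      · exact mem_sdiff.2 ⟨hc, hcX⟩
      · exact mem_sdiff.2 ⟨ha, haX⟩
      · exact mem_sdiff.2 ⟨hKS hx, fun h => (mem_sdiff.1 (hXM x h).1).2 hx⟩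
    · intro E hE
      have hES : E ⊆ S := fun x hx => (mem_sdiff.1 (mem_sdiff.1 (hE.subset hx)).1).1
      obtain ⟨e, he, v, hv, hev⟩ := hS.conn.2 E hES hE.nonempty (fun h => by
        have : a ∈ E := h ▸ ha
        exact (mem_sdiff.1 (hE.subset this)).2 (mem_insert_of_mem (mem_insert_self _ _)))
      rw [mem_sdiff] at hv
      have heA := mem_sdiff.1 (hE.subset he)
      have he1 := mem_sdiff.1 heA.1
      rw [mem_insert, mem_insert, not_or, not_or] at heA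
      by_cases hvA : v ∈ insert c (insert a K)
      · exact ⟨e, he, v, hvA, hev⟩
      · exfalso
        have hvX : v ∉ X := by
          intro hvX
          exact he1.2 (hX.mem_of_adj hvX (mem_erase.2 ⟨heA.2.1, mem_erase.2 ⟨heA.2.2.1,
            mem_sdiff.2 ⟨he1.1, heA.2.2.2⟩⟩⟩) hev.symm)
        exact hv.2 (hE.mem_of_adj he (mem_sdiff.2 ⟨mem_sdiff.2 ⟨hv.1, hvX⟩, hvA⟩) hev)
  -- good triples
  let Good : V → V → Finset V → Prop := fun p q K' => p ∈ X ∧ G.Adj p a ∧ q ∈ X ∧ G.Adj q c ∧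
    K' ⊆ X ∧ Ch G K' p q ∧ ∀ E, IsComp G (X \ K') E → ∃ k ∈ K', (∃ e ∈ E, G.Adj e k) ∧
      ∀ e ∈ E, ∀ v ∈ K', G.Adj e v → v = k
  have finish : ∀ p q K', Good p q K' → b ∈ K' → ∃ K' h₁' h₂', Feas G S a c K' h₁' h₂' ∧
      b ∈ K' := by
    rintro p q K' ⟨hp, hpa, hq, hqc, hK'X, hK'ch, hleft⟩ hbK
    exact ⟨K', q, p, ⟨hK'X.trans hXS, fun h => haX (hK'X h), fun h => hcX (hK'X h), hpa.symm,
      hqc.symm, hK'ch, x1_attach hS hXS hK'X hSX hleft⟩, hbK⟩
  by_contra hno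
  have hno' : ∀ p q K', Good p q K' → b ∉ K' := fun p q K' hg hbK => hno (finish p q K' hg hbK)
  -- an initial good triple
  obtain ⟨P, hPX, hP⟩ := h3 V G X p₀ q₀ hX.conn hp₀ hq₀
  obtain ⟨K₀, -, hK₀X, hK₀, hleft₀⟩ := h5 V G X P p₀ q₀ hX.conn hPX hP
  have hg₀ : Good p₀ q₀ K₀ := ⟨hp₀, hp₀a, hq₀, hq₀c, hK₀X, hK₀, hleft₀⟩
  obtain ⟨E₀, hE₀, hbE₀⟩ := exists_comp (G := G) (mem_sdiff.2 ⟨hbX, hno' _ _ _ hg₀⟩)
  -- minimal leftover
  obtain ⟨E, hEF, hmin⟩ := exists_min_image (X.powerset.filter (fun E => ∃ p q K', Good p q K' ∧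
    IsComp G (X \ K') E ∧ b ∈ E)) card ⟨E₀, mem_filter.2 ⟨mem_powerset.2
      (hE₀.subset.trans sdiff_subset), p₀, q₀, K₀, hg₀, hE₀, hbE₀⟩⟩
  obtain ⟨p, q, K', hg, hE, hbE⟩ := (mem_filter.1 hEF).2
  obtain ⟨hp, hpa, hq, hqc, hK'X, hK'ch, hleft⟩ := hg
  obtain ⟨k, hk, -, hk2⟩ := hleft E hE
  have hEc := x1_comp hK'X hE hk hk2
  have hkX := hK'X hk
  have hEK : ∀ x ∈ E, x ∉ K' := fun x hx => (mem_sdiff.1 (hE.subset hx)).2
  have hkE : k ∉ E := fun h => hEK k h hk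
  have hEt : (∃ e ∈ E, G.Adj e a) ∨ ∃ e ∈ E, G.Adj e c := by
    by_contra hn
    rw [not_or] at hn
    push Not at hn
    exact touch k E (hXM k hkX).1 (Or.inl hEc) hkE (fun e he => Or.inl (hn.1 e he))
      (fun e he => Or.inl (hn.2 e he))
  have conclude : ∀ p' q' K'', Good p' q' K'' →
      (b ∈ K'' ∨ ∃ F, IsComp G (X \ K'') F ∧ b ∈ F ∧ F ⊂ E) → False := by
    rintro p' q' K'' hg' (h | ⟨F, hF, hbF, hFE⟩)
    · exact hno' p' q' K'' hg' h
    · have := hmin F (mem_filter.2 ⟨mem_powerset.2 (hF.subset.trans sdiff_subset), p', q', K'',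
        hg', hF, hbF⟩)
      have := card_lt_card hFE
      omega
  rcases hEt with ⟨e, he, hea⟩ | ⟨e, he, hec⟩
  · obtain ⟨K'', hK''X, hK''ch, hleft'', hor⟩ := x1_step h3 h5 hX.conn hkX hEc hbE he
      (hK'X hK'ch.right_mem) (fun h => hEK _ h hK'ch.right_mem)
    exact conclude e q K'' ⟨hEc.subset_erase he, hea, hq, hqc, hK''X, hK''ch, hleft''⟩ hor
  · obtain ⟨K'', hK''X, hK''ch, hleft'', hor⟩ := x1_step h3 h5 hX.conn hkX hEc hbE he
      (hK'X hK'ch.left_mem) (fun h => hEK _ h hK'ch.left_mem)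
    exact conclude p e K'' ⟨hp, hpa, hEc.subset_erase he, hec, hK''X, hK''ch.symm, hleft''⟩ hor

end TwoWalk
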